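import Pool.Agent.H40.GG.Fin

/-! # The first Grigorchuk group has generating sets with nearly regular growth

Partial answer to Q1 of MP_120fb4_al: for every finite set F of elements of the first Grigorchuk
group and every ε > 0 there is a finite generating set S containing F for which all the ratios
growth S (n + 1) / growth S n with n large are at most 1 + ε. -/

namespace Pool.Agent.Results.MP_120fb4_al.NearlyRegularGrowth

open Pool.Agent.H40.GG

theorem result (F : Finset (Equiv.Perm (List Bool))) (hF : ∀ x ∈ F, x ∈ grig) (ε : ℝ)
    (hε : 0 < ε) :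
    ∃ S : Finset (Equiv.Perm (List Bool)), F ⊆ S ∧
      Subgroup.closure (S : Set (Equiv.Perm (List Bool))) = grig ∧
      ∃ n₀ : ℕ, ∀ n ≥ n₀, (growth (S : Set (Equiv.Perm (List Bool))) (n + 1) : ℝ) ≤
        (1 + ε) * growth (S : Set (Equiv.Perm (List Bool))) n :=
  main F hF ε hε

end Pool.Agent.Results.MP_120fb4_al.NearlyRegularGrowth
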